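import Pool.Agent.Helper1.Stab.Poly
import Pool.Agent.Helper1.Stab.Comp2

/-! Packet SHC FI5: if `- b_1² + q` is `m` times a class then `m` is invertible. -/

open CategoryTheory Topology Filter Set Matrix Opposite

noncomputable section

namespace Pool.Agent.Helper25.Stab

open Pool.Agent.Helper1.Stab Pool.Agent.Helper39.Stab

/-- `K × pt = K` -/
def pp (K : LC) : K.prod LC.point ≃ₜ K := Homeomorph.prodPUnit K

/-- `K = K × pt` -/
def pps (K : LC) : K ≃ₜ K.prod LC.point := (pp K).symm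

theorem homeo_aux1 (R : Biv) (L : LC) :
    R.comp (R.J (PMap.ofHomeo (LC.swap L LC.point))) (R.J (PMap.ofHomeo (LC.lunit L))) =
      R.J (PMap.ofHomeo (pp L)) := by
  rw [J_homeo]
  rfl

theorem homeo_aux2 (R : Biv) (K : LC) :
    R.comp (R.J (PMap.ofHomeo (LC.swap LC.point K)))
      (R.J (PMap.ofHomeo (pp K))) = R.J (PMap.ofHomeo (LC.lunit K)) := by
  rw [J_homeo]
  rfl

theorem tens_pp (R : Biv) {K L : LC} (x : R.Hom K L) :
    R.comp (R.tens x LC.point) (R.J (PMap.ofHomeo (pp L))) =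
      R.comp (R.J (PMap.ofHomeo (pp K))) x := tens_point' R x

/-- naturality of `pt × Z = Z` -/
theorem ltens_point (R : Biv) {K L : LC} (y : R.Hom K L) :
    R.comp (R.ltens LC.point y) (R.J (PMap.ofHomeo (LC.lunit L))) =
      R.comp (R.J (PMap.ofHomeo (LC.lunit K))) y := by
  unfold BivData.ltens
  rw [R.assoc, R.assoc, homeo_aux1, tens_pp, ← R.assoc, homeo_aux2]

theorem J_trans (R : Biv) {K L M N : LC} (e : K ≃ₜ L) (f : L ≃ₜ M) (x : R.Hom M N) :
    R.comp (R.J (PMap.ofHomeo e)) (R.comp (R.J (PMap.ofHomeo f)) x) =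
      R.comp (R.J (PMap.ofHomeo (K := K) (L := M) (e.trans f))) x := by
  rw [← R.assoc, J_homeo]

theorem J_cancel (R : Biv) {K L N : LC} (e : K ≃ₜ L) (x : R.Hom K N) :
    R.comp (R.J (PMap.ofHomeo e)) (R.comp (R.J (PMap.ofHomeo (K := L) (L := K) e.symm)) x) =
      x := by
  rw [← R.assoc, J_homeo_symm, R.id_comp]

theorem J_cancel' (R : Biv) {K L N : LC} (e : K ≃ₜ L) (x : R.Hom L N) :
    R.comp (R.J (PMap.ofHomeo (K := L) (L := K) e.symm)) (R.comp (R.J (PMap.ofHomeo e)) x) =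
      x := by
  rw [← R.assoc, J_homeo_symm', R.id_comp]

theorem mulPt_id {R : Biv} (P : PRTheory R) {L : LC} (y : P.Hom L LC.point) :
    P.mulPt (K := LC.point) (P.J (PMap.id LC.point)) y =
      P.comp (P.J (PMap.ofHomeo (LC.lunit L))) y := by
  unfold PRTheory.mulPt
  rw [tens_id P.toBiv, P.id_comp]
  exact ltens_point P.toBiv y

theorem mulPt_comp {R : Biv} (P : PRTheory R) {K K' L : LC} (e : K ≃ₜ K')
    (x : P.Hom K' LC.point) (y : P.Hom L LC.point) :
    P.mulPt (P.comp (P.J (PMap.ofHomeo e)) x) y =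
      P.comp (P.J (PMap.ofHomeo (K := K.prod L) (L := K'.prod L)
        (e.prodCongr (Homeomorph.refl L)))) (P.mulPt x y) := by
  unfold PRTheory.mulPt
  rw [P.tens_comp, tens_homeo P.toBiv, P.assoc, P.assoc, P.assoc]

theorem term_point {R : Biv} (P : PRTheory R) {K : LC} {d : ℕ} (c : R.Hom K (Cn d))
    (x : P.Hom (Cn d) LC.point) :
    P.term (R.comp c (R.J (PMap.ofHomeo (pps (Cn d))))) x = P.comp (P.inc c) x := by
  unfold PRTheory.term
  rw [P.inc_comp, P.inc_J, P.assoc]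
  congr 1
  have h1 : (LC.lunit LC.point : LC.point.prod LC.point ≃ₜ LC.point) = pp LC.point := by
    ext x
  rw [h1, tens_pp P.toBiv]
  exact J_cancel' P.toBiv (pp (Cn d)) x

/-- `b_i` is `b_[i]` up to a homeomorphism -/
theorem b_eq {R : Biv} (P : PRTheory R) (o : Orient R) (i : ℕ) :
    ∃ e : Cn i ≃ₜ Cn (deg [i]), P.b o i = P.comp (P.J (PMap.ofHomeo e)) (P.bL o [i]) := by
  let f : LC.point.prod (Cn i) ≃ₜ Cn (deg [i]) := CnAdd 0 i
  have h1 : P.bL o [i] = P.comp (P.J (PMap.ofHomeo (K := Cn (deg [i]))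
      (L := LC.point.prod (Cn i)) f.symm))
      (P.mulPt (K := LC.point) (P.J (PMap.id LC.point)) (P.b o i)) := rfl
  rw [mulPt_id] at h1
  refine ⟨(LC.lunit (Cn i)).symm.trans f, ?_⟩
  rw [h1]
  refine Eq.trans ?_ (J_trans P.toBiv (K := Cn i) (L := LC.point.prod (Cn i))
    (M := Cn (deg [i])) (LC.lunit (Cn i)).symm f _)
  have h2 := J_cancel P.toBiv (K := LC.point.prod (Cn i)) (L := Cn (deg [i])) f
    (P.comp (P.J (PMap.ofHomeo (LC.lunit (Cn i)))) (P.b o i))
  refine Eq.trans ?_ (congrArg (P.comp (P.J (PMap.ofHomeo (K := Cn i)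
    (L := LC.point.prod (Cn i)) (LC.lunit (Cn i)).symm))) h2.symm)
  exact (J_cancel' P.toBiv (LC.lunit (Cn i)) (P.b o i)).symm

/-- `b_1²` is `b_[1,1]` up to a homeomorphism -/
theorem b_sq {R : Biv} (P : PRTheory R) (o : Orient R) :
    ∃ e : (Cn 1).prod (Cn 1) ≃ₜ Cn (deg [1, 1]),
      P.mulPt (P.b o 1) (P.b o 1) = P.comp (P.J (PMap.ofHomeo e)) (P.bL o [1, 1]) := by
  obtain ⟨e, he⟩ := b_eq P o 1
  let f : (Cn (deg [1])).prod (Cn 1) ≃ₜ Cn (deg [1, 1]) := CnAdd (deg [1]) 1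
  have h1 : P.bL o [1, 1] = P.comp (P.J (PMap.ofHomeo (K := Cn (deg [1, 1]))
      (L := (Cn (deg [1])).prod (Cn 1)) f.symm))
      (P.mulPt (P.bL o [1]) (P.b o 1)) := rfl
  let e2 : (Cn 1).prod (Cn 1) ≃ₜ (Cn (deg [1])).prod (Cn 1) := e.prodCongr (Homeomorph.refl (Cn 1))
  have h2 : P.mulPt (P.b o 1) (P.b o 1) = P.comp (P.J (PMap.ofHomeo (K := (Cn 1).prod (Cn 1))
      (L := (Cn (deg [1])).prod (Cn 1)) e2))
      (P.mulPt (P.bL o [1]) (P.b o 1)) :=
    (congrArg (fun y => P.mulPt y (P.b o 1)) he).trans (mulPt_comp P e _ _)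
  refine ⟨e2.trans f, ?_⟩
  rw [h2, h1]
  refine Eq.trans ?_ (J_trans P.toBiv (K := (Cn 1).prod (Cn 1)) (L := (Cn (deg [1])).prod (Cn 1))
    (M := Cn (deg [1, 1])) e2 f _)
  exact congrArg (P.comp (P.J (PMap.ofHomeo (K := (Cn 1).prod (Cn 1))
    (L := (Cn (deg [1])).prod (Cn 1)) e2))) (J_cancel P.toBiv (K := (Cn (deg [1])).prod (Cn 1))
      (L := Cn (deg [1, 1])) f _).symm

/-- the list `[1, 1]` -/
def L11 : PL := ⟨[1, 1], by simp, by simp⟩

open Classical in
/-- the linear terms have no coefficient at `[1, 1]` -/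
theorem lin_term {R : Biv} (P : PRTheory R) (o : Orient R) {V : LC} (i : ℕ)
    (q : R.Hom V (Cn i)) :
    ∃ c : Π₀ L : PL, R.Hom V ((Cn (deg L.1)).prod LC.point),
      PO7.psi P o V LC.point c = P.comp (P.inc q) (P.b o i) ∧ c L11 = 0 := by
  obtain ⟨e, he⟩ := b_eq P o i
  have h1 : P.comp (P.inc q) (P.b o i) = P.term (R.comp (R.comp q (R.J (PMap.ofHomeo e)))
      (R.J (PMap.ofHomeo (pps (Cn (deg [i])))))) (P.bL o [i]) := by
    rw [term_point, P.inc_comp, P.inc_J, P.assoc, ← he]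
  rw [h1]
  generalize R.comp (R.comp q (R.J (PMap.ofHomeo e)))
      (R.J (PMap.ofHomeo (pps (Cn (deg [i]))))) = c
  rcases Nat.eq_zero_or_pos i with rfl | hi
  · let L0 : PL := ⟨[], by simp, by simp⟩
    refine ⟨DFinsupp.single L0 c, ?_, ?_⟩
    · refine (DFinsupp.sumAddHom_single _ _ _).trans ?_
      rw [PO7.bL_zero]
      rfl
    · refine DFinsupp.single_eq_of_ne ?_
      intro h
      exact absurd (congrArg (fun L : PL => L.1.length) h) (by simp [L0, L11])
  · let L1 : PL := ⟨[i], by simp, by simpa using hi⟩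
    refine ⟨DFinsupp.single L1 c, ?_, ?_⟩
    · exact DFinsupp.sumAddHom_single _ _ _
    · refine DFinsupp.single_eq_of_ne ?_
      intro h
      exact absurd (congrArg (fun L : PL => L.1.length) h) (by simp [L1, L11])

/-- the coefficient of `b_1²` -/
theorem exists_coeff {R : Biv} (o : Orient R) (P : PRTheory R) {V : LC}
    (φ : V ≃ₜ (Cn 1).prod (Cn 1)) (x z : P.Hom V LC.point) (q : ∀ i : ℕ, R.Hom V (Cn i))
    (hx : x = (∑ i ∈ Finset.range 4, P.comp (P.inc (q i)) (P.b o i)) -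
        P.comp (P.J (PMap.ofHomeo φ)) (P.mulPt (P.b o 1) (P.b o 1))) (m : ℤ) (h : x = m • z) :
    ∃ d : R.Hom V V, m • d = R.J (PMap.id V) := by
  classical
  obtain ⟨e, he⟩ := b_sq P o
  choose c hc hc0 using fun i => lin_term P o i (q i)
  obtain ⟨d, rfl⟩ := PO7.psi_surj P o V LC.point z
  let ψ : V ≃ₜ Cn (deg [1, 1]) := φ.trans e
  let a : R.Hom V ((Cn (deg L11.1)).prod LC.point) := R.comp (R.J (PMap.ofHomeo ψ))
    (R.J (PMap.ofHomeo (pps (Cn (deg [1, 1])))))
  have h1 : P.comp (P.J (PMap.ofHomeo φ)) (P.mulPt (P.b o 1) (P.b o 1)) =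
      PO7.psi P o V LC.point (DFinsupp.single L11 a) := by
    refine Eq.trans ?_ (DFinsupp.sumAddHom_single _ _ _).symm
    have h2 : P.term a (P.bL o [1, 1]) = P.comp (P.inc (R.J (PMap.ofHomeo ψ))) (P.bL o [1, 1]) :=
      term_point P _ _
    refine Eq.trans ?_ h2.symm
    rw [P.inc_J, he]
    exact J_trans P.toBiv _ _ _
  have h3 : PO7.psi P o V LC.point (m • d - ((∑ i ∈ Finset.range 4, c i) -
      DFinsupp.single L11 a)) = 0 := by
    rw [map_sub, map_zsmul, map_sub, map_sum, ← h1, Finset.sum_congr rfl fun i _ => hc i, ← hx, h,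
      sub_self]
  have h4 := PO7.psi_inj P o V LC.point _ h3
  have h5 := congrArg (fun c => c L11) (sub_eq_zero.1 h4)
  simp only [DFinsupp.smul_apply, DFinsupp.sub_apply, DFinsupp.single_eq_same,
    DFinsupp.finsetSum_apply] at h5
  rw [Finset.sum_congr rfl fun i _ => hc0 i, Finset.sum_const_zero, zero_sub] at h5
  let b : R.Hom ((Cn (deg L11.1)).prod LC.point) V := R.comp (R.J (PMap.ofHomeo (pp (Cn (deg [1, 1])))))
    (R.J (PMap.ofHomeo (K := Cn (deg [1, 1])) (L := V) ψ.symm))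
  have h6 : R.comp a b = R.J (PMap.id V) := by
    refine (R.assoc _ _ _).trans ?_
    refine (congrArg (R.comp (R.J (PMap.ofHomeo ψ))) (J_cancel' R (pp (Cn (deg [1, 1])))
      (R.J (PMap.ofHomeo (K := Cn (deg [1, 1])) (L := V) ψ.symm)))).trans ?_
    exact J_homeo_symm R ψ
  let T : R.Hom V ((Cn (deg L11.1)).prod LC.point) →+ R.Hom V V :=
    AddMonoidHom.mk' (fun y => R.comp y b) fun y y' => R.add_comp y y' _
  refine ⟨- T (d L11), ?_⟩
  have h7 : T (m • d L11) = T (-a) := congrArg T h5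
  rw [smul_neg, ← map_zsmul, h7, map_neg, neg_neg]
  exact h6

/-! ### Multiplication by `m` is bijective -/

theorem tens_tens_bij (R : Biv) {Z W : LC}
    (hZ : ∀ K L : LC, Function.Bijective (fun x : R.Hom K L => R.tens x Z))
    (hW : ∀ K L : LC, Function.Bijective (fun x : R.Hom K L => R.tens x W)) (K L : LC) :
    Function.Bijective (fun x : R.Hom K L => R.tens x (Z.prod W)) := by
  have h1 : Function.Bijective (fun x : R.Hom K L => R.tens (R.tens x Z) W) :=
    (hW (K.prod Z) (L.prod Z)).comp (hZ K L)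
  have h2 := ((R.invP_homeo (K := (L.prod Z).prod W) (L := L.prod (Z.prod W))
    (Homeomorph.prodAssoc L Z W)).post_bij R (K := (K.prod Z).prod W)).comp h1
  have h3 := (R.invP_homeo (K := (K.prod Z).prod W) (L := K.prod (Z.prod W))
    (Homeomorph.prodAssoc K Z W)).pre_bij R (M := L.prod (Z.prod W))
  have e : (fun z : R.Hom (K.prod (Z.prod W)) (L.prod (Z.prod W)) =>
      R.comp (R.J (PMap.ofHomeo (K := (K.prod Z).prod W) (L := K.prod (Z.prod W))
        (Homeomorph.prodAssoc K Z W))) z) ∘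
      (fun x : R.Hom K L => R.tens x (Z.prod W)) =
      (fun z : R.Hom ((K.prod Z).prod W) ((L.prod Z).prod W) =>
      R.comp z (R.J (PMap.ofHomeo (K := (L.prod Z).prod W) (L := L.prod (Z.prod W))
        (Homeomorph.prodAssoc L Z W)))) ∘
      (fun x : R.Hom K L => R.tens (R.tens x Z) W) := by
    funext x
    exact (R.tens_tens x Z W).symm
  exact (Function.Bijective.of_comp_iff' h3 _).1 (by rw [e]; exact h2)

theorem tens_homeo_bij (R : Biv) {Z W : LC} (e0 : Z ≃ₜ W)
    (hW : ∀ K L : LC, Function.Bijective (fun x : R.Hom K L => R.tens x W)) (K L : LC) :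
    Function.Bijective (fun x : R.Hom K L => R.tens x Z) := by
  obtain ⟨y1, hy1⟩ := (R.invP_homeo e0).ltens L
  obtain ⟨y2, hy2⟩ := (R.invP_homeo e0).ltens K
  have h1 := (hy2.pre_bij R (M := L.prod W)).comp (hW K L)
  have h2 := hy1.post_bij R (K := K.prod Z)
  have e : (fun z : R.Hom (K.prod Z) (L.prod Z) =>
      R.comp z (R.ltens L (R.J (PMap.ofHomeo e0)))) ∘ (fun x : R.Hom K L => R.tens x Z) =
      (fun z : R.Hom (K.prod W) (L.prod W) =>
        R.comp (R.ltens K (R.J (PMap.ofHomeo e0))) z) ∘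
        (fun x : R.Hom K L => R.tens x W) := by
    funext x
    exact R.exch x (R.J (PMap.ofHomeo e0))
  exact (Function.Bijective.of_comp_iff' h2 _).1 (by rw [e]; exact h1)

theorem tens_point_bij (R : Biv) (K L : LC) :
    Function.Bijective (fun x : R.Hom K L => R.tens x LC.point) := by
  have h1 := (R.invP_homeo (pp L)).post_bij R (K := K.prod LC.point)
  have h2 := (R.invP_homeo (pp K)).pre_bij R (M := L)
  have e : (fun z : R.Hom (K.prod LC.point) (L.prod LC.point) =>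
      R.comp z (R.J (PMap.ofHomeo (pp L)))) ∘ (fun x : R.Hom K L => R.tens x LC.point) =
      (fun z : R.Hom K L => R.comp (R.J (PMap.ofHomeo (pp K))) z) := by
    funext x
    exact tens_pp R x
  exact (Function.Bijective.of_comp_iff' h1 _).1 (by rw [e]; exact h2)

theorem tens_Cn_bij (R : Biv) : ∀ (n : ℕ) (K L : LC),
    Function.Bijective (fun x : R.Hom K L => R.tens x (Cn n))
  | 0 => tens_point_bij R
  | n + 1 => tens_tens_bij R (tens_Cn_bij R n) R.tens_C_bijective

theorem smul_bij (R : Biv) {V : LC}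
    (hV : ∀ K L : LC, Function.Bijective (fun x : R.Hom K L => R.tens x V)) (m : ℤ)
    (d : R.Hom V V) (hd : m • d = R.J (PMap.id V)) (K L : LC) :
    Function.Bijective (fun x : R.Hom K L => m • x) := by
  let T : R.Hom K L →+ R.Hom (K.prod V) (L.prod V) :=
    AddMonoidHom.mk' (fun y => R.tens y V) fun y y' => R.tens_add y y' _
  have key : ∀ y : R.Hom (K.prod V) (L.prod V), m • R.comp y (R.ltens L d) = y := by
    intro y
    let U : R.Hom V V →+ R.Hom (K.prod V) (L.prod V) :=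
      AddMonoidHom.mk' (fun c => R.comp y (R.ltens L c)) fun c c' => by
        rw [R.ltens_add, R.comp_add]
    have h1 : U (m • d) = m • U d := map_zsmul U m d
    rw [hd] at h1
    refine h1.symm.trans ?_
    change R.comp y (R.ltens L (R.J (PMap.id V))) = y
    rw [Pool.Agent.Helper39.Stab.ltens_id, R.comp_id]
  constructor
  · intro x y hxy
    apply (hV K L).1
    change T x = T y
    have h2 : m • T x = m • T y := by
      rw [← map_zsmul, ← map_zsmul]
      exact congrArg T hxy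
    let U : R.Hom (K.prod V) (L.prod V) →+ R.Hom (K.prod V) (L.prod V) :=
      AddMonoidHom.mk' (fun c => R.comp c (R.ltens L d)) fun c c' => R.add_comp c c' _
    rw [← key (T x), ← key (T y)]
    have h3 : U (m • T x) = U (m • T y) := congrArg U h2
    rw [map_zsmul, map_zsmul] at h3
    exact h3
  · intro y
    obtain ⟨y', hy'⟩ := (hV K L).2 (R.comp (T y) (R.ltens L d))
    refine ⟨y', (hV K L).1 ?_⟩
    change T (m • y') = T y
    rw [map_zsmul]
    change m • R.tens y' V = T y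
    have h4 : R.tens y' V = R.comp (T y) (R.ltens L d) := hy'
    rw [h4]
    exact key (T y)

theorem unit_of_hur {R : Biv} (o : Orient R) (P : PRTheory R) {V : LC}
    (φ : V ≃ₜ (Cn 1).prod (Cn 1)) (x z : P.Hom V LC.point) (q : ∀ i : ℕ, R.Hom V (Cn i))
    (hx : x = (∑ i ∈ Finset.range 4, P.comp (P.inc (q i)) (P.b o i)) -
        P.comp (P.J (PMap.ofHomeo φ)) (P.mulPt (P.b o 1) (P.b o 1))) (m : ℤ) (h : x = m • z) :
    IsIso (m • 𝟙 R.gf) := by
  obtain ⟨d, hd⟩ := exists_coeff o P φ x z q hx m h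
  have hV : ∀ K L : LC, Function.Bijective (fun x : R.Hom K L => R.tens x V) :=
    tens_homeo_bij R φ (tens_tens_bij R (tens_Cn_bij R 1) (tens_Cn_bij R 1))
  refine GF.isIso_of_bijective _ fun b K => ?_
  have h1 : ((m • 𝟙 R.gf : R.gf ⟶ R.gf).app b).app K = m • 𝟙 ((R.gf.h b).obj K) := by
    have h2 := (GF.ev b K.unop).map_zsmul (f := 𝟙 R.gf) (r := m)
    rw [CategoryTheory.Functor.map_id] at h2
    exact h2
  rw [h1]
  have h3 : (fun y : R.Hom K.unop.obj (Zb b) => m • y) =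
      ((m • 𝟙 ((R.gf.h b).obj K) : (R.gf.h b).obj K ⟶ (R.gf.h b).obj K)) := by
    funext y
    rfl
  have h4 := smul_bij R hV m d hd K.unop.obj (Zb b)
  rw [h3] at h4
  exact h4

end Pool.Agent.Helper25.Stab
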